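import Pool.Agent.J6H31.GA.StmM

/-!
# Semisimplicity of Frobenius on varieties with an action of an abelian `p`-group

Let `𝒳` be a smooth projective variety of dimension `d` over the finite field `κ` with `q` elements, `G`
a finite abelian group of automorphisms of `𝒳` over `κ` whose order is a power of a prime `p` which does
not divide `q`, and `Y = 𝒳 / G`. Let `Z_1, …, Z_r` be closed subvarieties of `Y` and `I_1, …, I_r`
subgroups of `G` such that the stabilizer of a point `x` of `𝒳` is generated by the `I_j` with
`π(x) ∈ Z_j` (for example the components of a branch divisor with normal crossings and their inertia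
groups; or the images of the fixed point sets of all elements of `G`). Assume that `G` acts trivially
on the cohomology of `𝒳` in the degrees different from `d` (for example abelian coverings of projective
spaces and of complete intersections branched along ample divisors with normal crossings). The
cohomology groups are those with coefficients in an algebraic closure `E` of the field of `ℓ`-adic
numbers, `ℓ ≠ char κ`; `ℓ = p` is allowed. For a character `χ` of `G` let `H_χ` be the part of
`H = H^d(𝒳̄, E)` on which `G` acts by `χ` and `J(χ)` the set of the `j` such that `χ` is not trivial on
`I_j`. For a set `A` of indices let `Z_A` be the intersection of the `Z_j`, `j ∈ A` (so `Z_∅ = Y`), with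
the zeta function `P₂ A / P₁ A`, and let

`red_χ = ∏_{A ⊆ J(χ)} (P₁ A / P₂ A) ^ (± 1)  mod p`, the exponent being `(-1) ^ (d + |A|)`.

Theorem.
(1) Let `χ ≠ 1`. The eigenvalues `x` of Frobenius on `H_χ` are algebraic integers, and the product of
the `1 - x T` is congruent to `red_χ` modulo every place above `p`; in particular `red_χ` is a
polynomial.
(2) If the roots of `red_χ` have multiplicity at most `e`, then all generalized eigenspaces of
Frobenius on `H_χ` have dimension at most `e`; so all Jordan blocks have size at most `e`.
(3) Assume that for each `χ ≠ 1` the polynomial `red_χ` is squarefree, or that `d` is even, `χ² = 1` and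
`red_χ = (1 - T)² R` with a squarefree polynomial `R`, `R(1) ≠ 0`. If Frobenius is semisimple on
`H^G = H^d(Ȳ)`, then it is semisimple on `H`.

So the semisimplicity of Frobenius passes from `Y` to `𝒳` under a condition on the zeta functions of the
strata modulo `p`, with no condition on the Hodge numbers or the dimensions of the `H_χ`. This can be
iterated (towers of abelian coverings, actions of arbitrary finite `p`-groups). The exceptional case in
(3) is essential for `p = 2`: if `χ² = 1` and `H_χ` has even dimension, the multiplicity of the root `1`
of `red_χ` is even.

Proof. For a character `χ` of `p`-power order the L-function of the sheaf belonging to `χ` is congruent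
modulo the places above `p` to the zeta function of the open set of `Y` where `χ` is unramified; the
number of points of this open set is given by inclusion and exclusion, and the L-function by the
Lefschetz formula for the compositions of the powers of Frobenius with the elements of `G`. For (2) one
uses that `p` does not divide the product `q ^ d` of an eigenvalue on `H_χ` with one on the dual part
`H_(1/χ)`. In the second case in (3) an orthogonal similitude cannot have exactly one Jordan block of
size two for an eigenvalue `± q ^ (d / 2)`, and the other eigenvalues which are congruent to `1` come
in pairs. (The congruence of zeta functions is taken from the starting library, project W528.HS.)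
-/

set_option autoImplicit false
set_option linter.unusedVariables false

namespace Pool.Agent.Results.MP_93fb11_ag.AbelianPCoverings

open Finset Polynomial Module Pool.Agent.J6H31.GA

/-- Semisimplicity of Frobenius for actions of abelian `p`-groups. -/
theorem result {p s d q r : ℕ} [Fact p.Prime] (hq : ¬ p ∣ q) {G : Type} [CommGroup G]
    [Fintype G] (hG : ∀ g : G, g ^ p ^ s = 1) {K : Covering G} {E : Type} [Field E] [CharZero E]
    [IsAlgClosed E] (D : Arrangement K E r) (H : Middle K d q E) :
    -- (1) the reduction of the characteristic polynomials
    (∀ χ : G →* E, χ ≠ 1 → H.HasReduction p χ (D.red p d χ)) ∧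
    -- (2) the generalized eigenspaces
    (∀ (χ : G →* E) (e : ℕ), χ ≠ 1 → MultLE p (D.red p d χ) e → ∀ α : E, H.mult χ α ≤ e) ∧
    -- (3) semisimplicity
    ((∀ χ : G →* E, χ ≠ 1 → D.Mild p d χ) →
      (H.part 1).IsSemisimple → H.Φ.IsSemisimple) := by
  refine ⟨fun χ hχ => ⟨?_, ?_⟩, fun χ e hχ he α => ?_, fun he hY => ?_⟩
  · exact (part_congr Fact.out hG D H.isMiddle hχ).1
  · intro k _ _ θ A hA
    exact red_eq hG D H.isMiddle hχ k θ A hA
  · exact dim_le hq hG D H.isMiddle H.B H.isPairing.nondeg H.group H.isPairing.frob hχ he α
  · exact semisimple hq hG D H.isMiddle H.B H.isPairing.nondeg H.isPairing.symm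
      H.group H.isPairing.frob he hY

end Pool.Agent.Results.MP_93fb11_ag.AbelianPCoverings
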