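import Pool.Agent.J6H24.SS.Fin1

/-!
# Semisimplicity of Frobenius in abelian coverings of `p`-power degree, with coefficients

Let `X` be a variety over the finite field with `q` elements and `𝓕` an `ℓ`-adic sheaf on `X` such that
the polynomials `P_v = det (1 - F_v T)` of the geometric Frobenius elements on the stalks at the
closed points `v` have integral coefficients, for example `𝓕 = j_* R^i f_* ℚ_ℓ` for a smooth projective
family `f` over an open subset `j : U → X` of a curve, or `R^i f_* ℚ_ℓ` on a variety `X` of any
dimension. Let `π : X' → X` be a Galois covering (possibly ramified, `X = X' / G`) whose group `G` is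
abelian of order a power of a prime `p ∤ q`; `p = ℓ` is allowed. We consider the group
`H = H^m_c(X'̄, π^* 𝓕)`, pure of weight `w` and with a pairing from Poincaré duality, and suppose that
the other cohomology groups of `π^* 𝓕` have no part for the characters `χ ≠ 1` of `G`. For example,
`X'` is a smooth projective curve, `m = 1`, `π^* 𝓕` is the middle extension of a sheaf without geometrically
constant parts; then `H = H¹(X'̄, j'_* R^i f'_* ℚ_ℓ)` is a part of the cohomology `H^(i+1)` of (a smooth
projective model of) the pull-back of the family to `X'`. The group acts in general nontrivially on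
the cohomology of `X'` and of the fibre spaces in the other degrees.

For a character `χ ≠ 1` let `U_χ` be the set of the closed points at which `χ` is unramified, and let
`N_χ / D_χ` be the L-function of the restriction of `𝓕` to `U_χ`, with polynomials over `ℤ`; `U_χ` is an
open subset of `X` which does not depend on `χ` but only on its ramification. Let `red_χ` be the
reduction of `(N_χ / D_χ) ^ (± 1)` modulo `p`, with the sign `(-1) ^ (m + 1)`.

Theorem. (1) Let `χ ≠ 1`. The eigenvalues `x` of Frobenius on the part `H_χ` are algebraic integers, and
`∏ (1 - x T)` is congruent to `red_χ` modulo every place above `p`. In particular `red_χ` is a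
polynomial.
(2) If the zeros of `red_χ` have multiplicity at most `e` then the generalized eigenspaces of
Frobenius on `H_χ` have dimension at most `e`; so all Jordan blocks have size at most `e`.
(3) Let `A` be a space of algebraic classes in `H` (possibly `A = 0`): it is stable under `G`, Frobenius
is multiplication by `q ^ (w / 2)`, and the pairing is nondegenerate on `A`. Suppose that for each
`χ ≠ 1` the polynomial `red_χ` is squarefree, or `w = 2 c` and it is `(1 - q ^ c T) ^ j R` with a
squarefree polynomial `R` which does not vanish at `q ^ (-c)` and with `j ≤ dim A_χ + 1`, or `χ² = 1`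
and `j ≤ dim A_χ + 2`. If Frobenius is semisimple on `H^G = H^m_c(X̄, 𝓕)`, then it is semisimple on `H`.

For example let `f : 𝓔 → X` be an elliptic surface, `L(T)` the L-function of its generic fibre (the
characteristic polynomial of Frobenius on `H¹(X̄, j_* R¹ f_* ℚ_ℓ)`), and let `G` be ramified only in a
finite set `T` of places `v` of good reduction. Then `red_χ` is the product of `L` and of the
`P_v(T ^ deg v)`, `v ∈ T` ramified for `χ`; so if `L` and these polynomials are squarefree and pairwise
coprime modulo `p`, Frobenius is semisimple on `H²` of the elliptic surface over every abelian covering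
of `X` of `p`-power degree unramified outside `T`.

Proof. `χ(F_v)` is a root of unity of `p`-power order, so the Euler factors of `𝓕 ⊗ χ` and `𝓕` at the
points of `U_χ` are congruent modulo the places above `p`, and so are the L-functions. For (2), (3) one
uses the duality between `H_χ` and the part of `χ⁻¹` and the arguments of the file
`MP_93fb11_ag.AbelianPCoverings` and of `MP_1fe969_ag.AlgebraicClassesAndSigns`.
-/

set_option autoImplicit false

namespace Pool.Agent.Results.MP_93fb11_ag.CoveringsWithCoefficients

open Polynomial Module Pool.Agent.J6H24.SS

/-- Semisimplicity of Frobenius in abelian coverings, with coefficients. -/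
theorem result {p s m w q : ℕ} [Fact p.Prime] (hq : ¬ p ∣ q) {G : Type} [CommGroup G] [Fintype G]
    (hG : ∀ g : G, g ^ p ^ s = 1) {S : Sheaf} {C : Cover S G} {E : Type} [Field E] [CharZero E]
    [IsAlgClosed E] (H : Coh C m w q E) (N D : (G →* E) → ℤ[X])
    (hL : ∀ χ : G →* E, χ ≠ 1 → S.IsL (C.unr χ) (N χ) (D χ)) :
    -- (1) the reduction of the characteristic polynomials
    (∀ χ : G →* E, χ ≠ 1 → H.HasReduction p χ (red p m (N χ) (D χ))) ∧
    -- (2) the generalized eigenspaces
    (∀ (χ : G →* E) (e : ℕ), χ ≠ 1 → MultLE p (red p m (N χ) (D χ)) e →
      ∀ α : E, H.mult χ α ≤ e) ∧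
    -- (3) semisimplicity
    (∀ A : Submodule E H.V, H.IsAlg A →
      (∀ χ : G →* E, χ ≠ 1 → H.Mild p A χ (red p m (N χ) (D χ))) →
        (H.part 1).IsSemisimple → H.Φ.IsSemisimple) := by
  have hred : ∀ χ : G →* E, χ ≠ 1 → H.HasReduction p χ (red p m (N χ) (D χ)) := fun χ hχ =>
    reduces hG (H.grothendieck χ hχ) (hL χ hχ)
  exact ⟨hred, fun χ e hχ he α => H.dim_le hq hG _ hred hχ he α, fun A hA hM h1 =>
    H.semisimple hq hG A hA _ hred hM h1⟩

end Pool.Agent.Results.MP_93fb11_ag.CoveringsWithCoefficients
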