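import Pool.Agent.J6H90.SF.Own
import Pool.Agent.J6H90.SF.PLOEWY
import Pool.Agent.J6H90.SF.PROOT
import Pool.Agent.J6H90.WT.Fin

/-!
# Jordan blocks of Frobenius and semisimplicity of the Galois representation

Let `X` be a smooth projective variety over a number field `K` and `V_ℓ = H^w(X, ℚ_ℓ)`, for all
primes `ℓ` (or the realisations of a motive of weight `w`), and let `W_ℓ` be the realisations of
another motive of weight `w` over `K`. At the places `v` outside a finite set the difference `a_v` of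
the traces of the geometric Frobenius elements on `V_ℓ` and `W_ℓ` is a rational number which does
not depend on `ℓ`, and `a_v ^ 2 ≤ C N(v) ^ w` (Deligne; Katz and Messing). Suppose that `d a_v ^ 2` is
an integral multiple of `N(v) ^ w` (`d` a positive integer) for `v` in a set of upper density larger
than `1 - 1 / (n ^ 2 + m ^ 2)`, where `n` and `m` are the ranks.

Then, for *every* element `g` of the Galois group of `K`, in particular for the Frobenius elements at
all places, if `W_ℓ(g)` is diagonalisable over an algebraic closure of `ℚ_ℓ` then the Jordan blocks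
of `V_ℓ(g)` have size at most the Loewy length `h` of the representation `V_ℓ` (the least length of a
filtration of `V_ℓ` by subrepresentations with semisimple quotients). More generally, if the
Jordan blocks of `W_ℓ(g)` have size at most `b` then those of `V_ℓ(g)` have size at most `b h`. In
particular, if `V_ℓ` is semisimple and `W_ℓ(g)` is diagonalisable then `V_ℓ(g)` is diagonalisable.

If `X` has good reduction at `v` and `ℓ` is not below `v` then `V_ℓ` is the `ℓ`-adic cohomology of
the reduction `X_v`, a smooth projective variety over a finite field, with its Frobenius. So we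
obtain: the sizes of the Jordan blocks of Frobenius on `H^w(X_v, ℚ_ℓ)` at *all* places `v` of good
reduction, of `X` and of `W`, not below `ℓ`, are bounded by one number, the Loewy length of
`H^w(X, ℚ_ℓ)`, if `W` is built from abelian varieties (the Frobenius is semisimple by Weil); and
Frobenius is semisimple on all the `H^w(X_v, ℚ_ℓ)` if `H^w(X, ℚ_ℓ)` is a semisimple Galois
representation. Without a comparison with `W`, the semisimplicity of `V_ℓ` gives the semisimplicity
of Frobenius only for `v` in a set of density one.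

Proof. By the start file behind `EulerFactorTransfer`, `T(x y) = c(x) T(y)` for the difference `T` of
the traces and all `x` in an open normal subgroup `U`, `c` a power of the cyclotomic character. If
`p` is a squarefree polynomial with `p(W(g ^ M)) ^ b = 0` and `p(c(g ^ M)) = 0`, where `g ^ M ∈ U`, then
`p(V(g ^ M)) ^ b` is in the radical of the trace form of the algebra spanned by the Galois group in
`End V_ℓ`, which acts as zero on the semisimple quotients.
-/

set_option autoImplicit false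

namespace Pool.Agent.Results.MP_93fb11_ag.TransferOfSemisimplicity

open NumberField IsDedekindDomain Filter Matrix Polynomial

/-- the absolute Galois group of the field `K`, with the Krull topology -/
abbrev AbsGal (K : Type) [Field K] : Type := Gal(AlgebraicClosure K/K)

section
variable {K : Type} [Field K]

/-- `g` is an arithmetic Frobenius element at the ideal `Q` of the ring of all algebraic integers,
for a residue field with `q` elements of the place below `Q`. -/
def FrobeniusAt (Q : Ideal (𝓞 (AlgebraicClosure K))) (q : ℕ) (g : AbsGal K) : Prop :=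
  ∀ x : 𝓞 (AlgebraicClosure K), g • x - x ^ q ∈ Q

/-- `Q` is a maximal ideal of the ring of all algebraic integers which lies above the finite
place `v` of `K`. -/
def LiesAbove [NumberField K] (v : HeightOneSpectrum (𝓞 K))
    (Q : Ideal (𝓞 (AlgebraicClosure K))) : Prop :=
  Q.IsMaximal ∧ Q.comap (algebraMap (𝓞 K) (𝓞 (AlgebraicClosure K))) = v.asIdeal

/-- the matrix of `g` -/
noncomputable def mat {F : Type} [Field F] {n : ℕ} (ρ : AbsGal K →* GL (Fin n) F) (g : AbsGal K) :
    Matrix (Fin n) (Fin n) F :=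
  (ρ g : GL (Fin n) F)

/-- the subspace `T` is stable under `ρ` -/
def Stable {F : Type} [Field F] {n : ℕ} (ρ : AbsGal K →* GL (Fin n) F)
    (T : Submodule F (Fin n → F)) : Prop := ∀ g, ∀ x ∈ T, mat ρ g *ᵥ x ∈ T

/-- The representation `ρ` is semisimple: every stable subspace has a stable complement. -/
def Semisimple {F : Type} [Field F] {n : ℕ} (ρ : AbsGal K →* GL (Fin n) F) : Prop :=
  ∀ S, Stable ρ S → ∃ T, Stable ρ T ∧ IsCompl S T

/-- The representation `ρ` has Loewy length at most `h`: there is a filtration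
`0 = S 0 ⊆ S 1 ⊆ ... ⊆ S h = V` by stable subspaces such that the quotients `S (i + 1) / S i` are
semisimple, that is, every stable subspace `T` between `S i` and `S (i + 1)` has a stable
complement `T'` in `S (i + 1)` modulo `S i`. -/
def LoewyLengthAtMost {F : Type} [Field F] {n : ℕ} (ρ : AbsGal K →* GL (Fin n) F) (h : ℕ) : Prop :=
  ∃ S : ℕ → Submodule F (Fin n → F), S 0 = ⊥ ∧ S h = ⊤ ∧ (∀ i < h, S i ≤ S (i + 1)) ∧
    (∀ i ≤ h, Stable ρ (S i)) ∧ ∀ i < h, ∀ T, Stable ρ T → S i ≤ T → T ≤ S (i + 1) →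
      ∃ T', Stable ρ T' ∧ S i ≤ T' ∧ T' ≤ S (i + 1) ∧ T ⊓ T' = S i ∧ T ⊔ T' = S (i + 1)

end

/-- The Jordan blocks of the matrix `A`, over an algebraic closure of the field `F` of characteristic
zero, have size at most `b`: there is a squarefree polynomial `q` with `q(A) ^ b = 0`. For `b = 1` this
means that `A` is diagonalisable over an algebraic closure. -/
def BlocksAtMost {F : Type} [Field F] {n : ℕ} (A : Matrix (Fin n) (Fin n) F) (b : ℕ) : Prop :=
  ∃ q : F[X], Squarefree q ∧ aeval A q ^ b = 0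

/-- The traces of the Frobenius elements on `V` and `W` are close to each other, with respect to the
weight `w`: outside a finite set `B` of places the difference of the traces of the geometric
Frobenius elements at `v` on `V_ℓ` and `W_ℓ` is a rational number `a_v` which does not depend on `ℓ`
(not below `v`), and `a_v ^ 2 ≤ C N(v) ^ w`; for a positive integer `d`, the number `d a_v ^ 2` is an
integral multiple of `N(v) ^ w`, except for the places `v` in a set of lower density `≤ θ`, where
`θ (n ^ 2 + m ^ 2) < 1`. -/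
def CloseTraces {K : Type} [Field K] [NumberField K] {n m : ℕ}
    (V : ∀ (ℓ : ℕ) [Fact ℓ.Prime], AbsGal K →* GL (Fin n) ℚ_[ℓ])
    (W : ∀ (ℓ : ℕ) [Fact ℓ.Prime], AbsGal K →* GL (Fin m) ℚ_[ℓ]) (w : ℤ) : Prop :=
  ∃ (B : Set (HeightOneSpectrum (𝓞 K))) (a : HeightOneSpectrum (𝓞 K) → ℚ) (C : ℝ) (d : ℕ) (θ : ℝ),
    B.Finite ∧
    (∀ (ℓ : ℕ) [Fact ℓ.Prime], ∀ v, v ∉ B → (ℓ : 𝓞 K) ∉ v.asIdeal → ∀ Q, LiesAbove v Q →
      ∀ g, FrobeniusAt Q (Ideal.absNorm v.asIdeal) g →
        (mat (V ℓ) g⁻¹).trace - (mat (W ℓ) g⁻¹).trace = (a v : ℚ_[ℓ])) ∧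
    (∀ v, v ∉ B → (a v : ℝ) ^ 2 ≤ C * (Ideal.absNorm v.asIdeal : ℝ) ^ w) ∧
    0 < d ∧ θ * ((n : ℝ) ^ 2 + (m : ℝ) ^ 2) < 1 ∧
    ∃ᶠ x : ℕ in atTop, ({v : HeightOneSpectrum (𝓞 K) | Ideal.absNorm v.asIdeal ≤ x ∧
      ¬ ∃ c : ℤ, (d : ℚ) * a v ^ 2 = (Ideal.absNorm v.asIdeal : ℚ) ^ w * c}.ncard : ℝ) ≤
        θ * Nat.primeCounting x

/-- **Jordan blocks of Frobenius and of all other Galois automorphisms.** -/
theorem result {K : Type} [Field K] [NumberField K] {n m : ℕ}
    (V : ∀ (ℓ : ℕ) [Fact ℓ.Prime], AbsGal K →* GL (Fin n) ℚ_[ℓ])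
    (hV : ∀ (ℓ : ℕ) [Fact ℓ.Prime], Continuous (V ℓ))
    (W : ∀ (ℓ : ℕ) [Fact ℓ.Prime], AbsGal K →* GL (Fin m) ℚ_[ℓ])
    (hW : ∀ (ℓ : ℕ) [Fact ℓ.Prime], Continuous (W ℓ))
    (w : ℤ) (hVW : CloseTraces V W w) (ℓ : ℕ) [Fact ℓ.Prime] (g : AbsGal K) :
    (∀ b h : ℕ, 0 < b → BlocksAtMost (mat (W ℓ) g) b → LoewyLengthAtMost (V ℓ) h →
      BlocksAtMost (mat (V ℓ) g) (b * h)) ∧
    (Semisimple (V ℓ) → Squarefree (minpoly ℚ_[ℓ] (mat (W ℓ) g)) →
      Squarefree (minpoly ℚ_[ℓ] (mat (V ℓ) g))) := by
  obtain ⟨B, a, C, d, θ, hB, htr, hC, hd, hθ, hdiv⟩ := hVW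
  obtain ⟨u, φ, U, hw, hUn, hUo, hU, hφ⟩ := Pool.Agent.R401.Tr7.family V hV W hW B hB a w (by
      rintro ℓ _ v hv hℓ g ⟨Q, hQ, hQv, hg⟩
      exact htr ℓ v hv hℓ Q ⟨hQ, hQv⟩ g hg) C hC θ hθ hd (by
      refine (hdiv.and_eventually (Nat.tendsto_primeCounting.eventually_gt_atTop 0)).mono ?_
      rintro N ⟨h1, h3⟩
      have h4 : (0 : ℝ) < (Nat.primeCounting N : ℝ) := by exact_mod_cast h3
      unfold Pool.Agent.W401.Cheb.dens
      rw [div_le_iff₀ h4]
      exact h1)
  have hfin : Finite (AbsGal K ⧸ U) := Subgroup.quotient_finite_of_isOpen _ hUo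
  have hfi : U.FiniteIndex := Subgroup.finiteIndex_of_finite_quotient
  set c : AbsGal K →* ℚ_[ℓ] :=
    { toFun := fun g => Pool.Agent.R401.Sup3.cyc K ℓ ℚ_[ℓ] g ^ (-u)
      map_one' := by rw [map_one, _root_.one_zpow]
      map_mul' := fun x y => by rw [map_mul, mul_zpow] } with hc
  have hmain : ∀ b h : ℕ, 0 < b → BlocksAtMost (mat (W ℓ) g) b → LoewyLengthAtMost (V ℓ) h →
      BlocksAtMost (mat (V ℓ) g) (b * h) := by
    rintro b h hb ⟨q, hq, hqW⟩ ⟨S, h0, h1, h2, h3, h4⟩
    exact Pool.Agent.J6H90.SF.main (Pool.Agent.R401.Tr9.mh (V ℓ)) (Pool.Agent.R401.Tr9.mh (W ℓ))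
      Pool.Agent.J6H90.SF.loewy Pool.Agent.J6H90.SF.root c U
      (fun x hx y => Pool.Agent.J6H90.WT.tr_mul hU (hφ ℓ) hx y)
      (Nat.pos_of_ne_zero hfi.index_ne_zero) (Subgroup.pow_index_mem U g) hq hb hqW
      (⟨h0, h1, h2, h3, h4⟩ : Pool.Agent.J6H90.SF.Loewy (Pool.Agent.R401.Tr9.mh (V ℓ)) h S)
  refine ⟨hmain, fun hVs hWg => ?_⟩
  have hL : LoewyLengthAtMost (V ℓ) 1 := by
    refine ⟨fun i => if i = 0 then ⊥ else ⊤, by simp, by simp, ?_, ?_, ?_⟩
    · intro i hi
      have : i = 0 := by omega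
      subst this
      simp
    · intro i _ g x hx
      by_cases hi : i = 0
      · simp only [hi, if_true, Submodule.mem_bot] at hx ⊢
        rw [hx, Matrix.mulVec_zero]
      · simp [hi]
    · intro i hi T hT _ _
      have : i = 0 := by omega
      subst this
      obtain ⟨T', hT', hc⟩ := hVs T hT
      refine ⟨T', hT', by simp, by simp, ?_, ?_⟩
      · simpa using hc.inf_eq_bot
      · simpa using hc.sup_eq_top
  obtain ⟨q, hq, hqV⟩ := hmain 1 1 one_pos ⟨_, hWg, by rw [pow_one, minpoly.aeval]⟩ hL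
  rw [mul_one, pow_one] at hqV
  exact hq.squarefree_of_dvd (minpoly.dvd _ _ hqV)

end Pool.Agent.Results.MP_93fb11_ag.TransferOfSemisimplicity
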