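import Pool.Agent.J6H2.NP.Form

/-!
# Semisimplicity of Frobenius on average over twists and coverings, for all smooth projective families

Let `F` be a finite field with `q` elements, `f : X → U` any smooth projective morphism onto an open
subset of the affine line over `F` (the fibres may have any dimension), `w ≥ 0`, and let `r` be the
rank of `R^w f_* ℚ_ℓ`. For a polynomial `D` over `F` consider the coverings `y ^ m = D(t)`, `m ∣ q - 1`,
or `y ^ p - y = D(t)`, of the line, with the sheaves `L_χ(D)` of the nontrivial characters of their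
groups. The cohomology of the pullback of the family to the covering consists of that of the family
and of the spaces `H_D = H¹(ℙ¹, j_* (R^w f_* ℚ_ℓ ⊗ L_χ(D)))`, which are pure of weight `w + 1`, up to
parts of other weights. Frobenius is semisimple on `H_D` if and only if the nilpotent part `n_D` of
its Jordan decomposition vanishes.

We prove that on average over all polynomials `D` of degree less than `N` the rank of `n_D ^ R` is at
most `C R^(-c R) N`, for every `R ≥ 1`, with constants which depend only on `r` and on a bound for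
`dim H_D / N`, not on `q`, `w`, `N`, the family and the character; and that `n_D ^ R = 0` for all `D`
but a proportion `N^(-B)` if `R ≥ A log N / log log N`.
-/

set_option autoImplicit false

namespace Pool.Agent.Results.MP_93fb11_ag.TwistsOnAverage

open Polynomial

/-- A nontrivial character: tame (of the multiplicative group of the finite field `F`) or wild (of its
additive group). -/
inductive Character (F : Type) [Field F]
  | tame (χ : MulChar F ℂ) (h : χ ≠ 1)
  | wild (ψ : AddChar F ℂ) (h : ψ ≠ 1)

/-- The trace of Frobenius at the place `P` on the sheaf `L_χ(D)`: the value of the character at the norm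
(tame case; `0` if `P` divides `D`), or at the trace (wild case), of the residue of `D` modulo `P`. -/
noncomputable def Character.value {F : Type} [Field F] (T : Character F) (P D : F[X]) : ℂ :=
  match T with
  | .tame χ _ => χ (Algebra.norm F (Ideal.Quotient.mk (Ideal.span {P}) D))
  | .wild ψ _ => ψ (Algebra.trace F _ (Ideal.Quotient.mk (Ideal.span {P}) D))

/-- The local data of a family, smooth and projective outside the finite set `bad` of places of the
affine line: the `r` eigenvalues of the Frobenius at the place `P` on the cohomology of degree `w` of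
the fibre, which are of absolute value `q_P ^ (w / 2)` (Deligne). -/
structure Family (F : Type) [Field F] (r w : ℕ) where
  bad : Finset F[X]
  loc : F[X] → Fin r → ℂ
  norm_loc : ∀ P, P.Monic → Irreducible P → P ∉ bad → ∀ i, ‖loc P i‖ = √(Nat.card F) ^ (w * P.natDegree)

/-- The monic irreducible polynomials of degree `e` outside a finite set. -/
def goodPlaces {F : Type} [Field F] (bad : Finset F[X]) (e : ℕ) : Set F[X] :=
  {P | P.Monic ∧ Irreducible P ∧ P.natDegree = e ∧ P ∉ bad}

/-- Frobenius on the cohomology of the family twisted by `D`, with a nilpotent endomorphism commuting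
with it. The number `∑ α i ^ n + ∑ β j ^ n` is the trace of the `n`-th power of Frobenius on
`H¹_c(U, G)`, `G = R^w f_* ℚ_ℓ ⊗ L_χ(D)`, `U` the complement of `bad` (and of the zeros of `D` in the
tame case) in the affine line; the `α i` are the eigenvalues on the quotient `H = H¹(ℙ¹, j_* G)`, which
is pure of weight `w + 1`, and the `β j` are the other eigenvalues, of weight at most `w`; and
`formula` is the trace formula (for the `D` with `H²_c(U, G) = 0`). The space `H` enters through the
matrix `Φ` of Frobenius, in a basis, with coefficients embedded in `ℂ`. -/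
structure TwistedModule {F : Type} [Field F] {r w : ℕ} (X₀ : Family F r w) (T : Character F) (D : F[X])
    (K : ℝ) where
  /-- the dimension of the part `H` of weight `w + 1` -/
  dim : ℕ
  /-- the eigenvalues of Frobenius on `H` -/
  α : Fin dim → ℂ
  /-- the number of the other eigenvalues -/
  dim' : ℕ
  /-- the other eigenvalues -/
  β : Fin dim' → ℂ
  size : (dim : ℝ) ≤ K ∧ (dim' : ℝ) ≤ K
  norm_α : ∀ i, ‖α i‖ = √(Nat.card F) ^ (w + 1)
  norm_β : ∀ j, ‖β j‖ ≤ √(Nat.card F) ^ w
  formula : ∀ n : ℕ, 1 ≤ n → ∑ i, α i ^ n + ∑ j, β j ^ n =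
    -∑ e ∈ n.divisors, ∑ᶠ P ∈ goodPlaces X₀.bad e,
      (e : ℂ) * (T.value P D ^ (n / e) * ∑ i, X₀.loc P i ^ (n / e))
  /-- the matrix of Frobenius on `H` -/
  Φ : Matrix (Fin dim) (Fin dim) ℂ
  charpoly_Φ : Φ.charpoly = ∏ i, (X - C (α i))
  /-- a nilpotent endomorphism of `H` -/
  nil : Matrix (Fin dim) (Fin dim) ℂ
  isNilpotent_nil : IsNilpotent nil
  commute_nil : Commute Φ nil

/-- The sum of the dimensions of the generalized eigenspaces of dimension at least `R` of Frobenius. -/
noncomputable def TwistedModule.large {F : Type} [Field F] {r w : ℕ} {X₀ : Family F r w} {T : Character F}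
    {D : F[X]} {K : ℝ} (E : TwistedModule X₀ T D K) (R : ℕ) : ℕ :=
  {i | R ≤ {j | E.α j = E.α i}.ncard}.ncard

/-- For a finite set `S` of polynomials `D`: the total dimension of the generalized eigenspaces of
dimension at least `R`, the total rank of the `R`-th powers of the nilpotent endomorphisms, and the
number of the `D` for which this power is not zero, are at most `b`. -/
structure SmallOn {F : Type} [Field F] {r w : ℕ} {X₀ : Family F r w} {T : Character F} {K : ℝ}
    (S : Finset F[X]) (E : ∀ D : S, TwistedModule X₀ T D.1 K) (R : ℕ) (b : ℝ) : Prop where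
  eigenspaces : (∑ D, ((E D).large R : ℝ)) ≤ b
  ranks : (∑ D, (((E D).nil ^ R).rank : ℝ)) ≤ b
  exceptions : ({D | (E D).nil ^ R ≠ 0}.ncard : ℝ) ≤ b

section proofs

open Pool.Agent.J6H2.NP Pool.Agent.N430.BP.FF

lemma norm_value_le {F : Type} [Field F] [Fintype F] (T : Character F) (P D : F[X]) :
    ‖T.value P D‖ ≤ 1 := by
  cases T with
  | tame χ h => exact norm_mulChar_le χ _
  | wild ψ h => exact norm_addChar_le ψ _

lemma value_per {F : Type} [Field F] [Fintype F] (T : Character F) (P A B : F[X]) (h : P ∣ A - B) :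
    T.value P A = T.value P B := by
  have e : Ideal.Quotient.mk (Ideal.span {P}) A = Ideal.Quotient.mk (Ideal.span {P}) B :=
    (mk_eq_iff P A B).2 h
  cases T with
  | tame χ h => simp only [Character.value, e]
  | wild ψ h => simp only [Character.value, e]

/-- the local traces of a family of twists -/
lemma sys {F : Type} [Field F] [Fintype F] {r w : ℕ} (X₀ : Family F r w) (T : Character F) :
    Sys1 (fun P D => tn w X₀.bad X₀.loc (fun P => T.value P D) P) ((r + 3 : ℕ) : ℝ) := by
  classical
  refine ⟨fun P A B h => ?_, fun P hm hi D => ?_, fun P hm hi N hN ω => ?_⟩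
  · simp only [tn, value_per T P A B h]
  · simp only [tn]
    split_ifs with hb
    · rw [norm_zero]
      positivity
    · obtain ⟨r0, r1⟩ := rk_bounds F
      have h1 : ‖∑ i, X₀.loc P i‖ ≤ r * (rk F ^ (w * P.natDegree))⁻¹ := by
        refine (norm_sum_le _ _).trans
          ((Finset.sum_le_sum (g := fun _ => (rk F ^ (w * P.natDegree))⁻¹) fun i _ => ?_).trans ?_)
        · rw [X₀.norm_loc P hm hi hb i, Nat.card_eq_fintype_card, sqrt_rk]
        · rw [Finset.sum_const, Finset.card_univ, Fintype.card_fin, nsmul_eq_mul]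
      rw [norm_mul, norm_mul, Complex.norm_real, Real.norm_eq_abs, abs_of_nonneg (by positivity)]
      calc rk F ^ (w * P.natDegree) * (‖T.value P D‖ * ‖∑ i, X₀.loc P i‖) ≤
          rk F ^ (w * P.natDegree) * (1 * (r * (rk F ^ (w * P.natDegree))⁻¹)) := by
            refine mul_le_mul_of_nonneg_left ?_ (by positivity)
            exact mul_le_mul (norm_value_le T P D) h1 (norm_nonneg _) zero_le_one
        _ = r := by
          field_simp
        _ ≤ ((r + 3 : ℕ) : ℝ) := by
          push_cast
          linarith
  · have := finite_res hm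
    let _ := Fintype.ofFinite (F[X] ⧸ Ideal.span {P})
    simp only [tn]
    split_ifs with hb
    · simp only [mul_zero, Complex.zero_re]
      unfold mV
      exact mn_const _
    · cases T with
      | tame χ h =>
        have h1 := mean_res hm hi hN (fun a => χ (Algebra.norm F a)) (tame_sum hm hi χ h)
          (ω * (((rk F ^ (w * P.natDegree) : ℝ) : ℂ) * ∑ i, X₀.loc P i))
        rw [← h1]
        unfold mV
        congr 1
        funext v
        simp only [Character.value]
        congr 1
        ring
      | wild ψ h =>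
        have h1 := mean_res hm hi hN (fun a => ψ (Algebra.trace F _ a)) (wild_sum hm hi ψ h)
          (ω * (((rk F ^ (w * P.natDegree) : ℝ) : ℂ) * ∑ i, X₀.loc P i))
        rw [← h1]
        unfold mV
        congr 1
        funext v
        simp only [Character.value]
        congr 1
        ring

/-- the data for the engine -/
noncomputable def TwistedModule.toED {F : Type} [Field F] [Fintype F] {r w : ℕ} {X₀ : Family F r w}
    {T : Character F} {D : F[X]} {K : ℝ} (E : TwistedModule X₀ T D K) :
    ED (tn w X₀.bad X₀.loc (fun P => T.value P D)) (2 * r) K :=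
  edOf (fun P h1 h2 h3 i => by rw [X₀.norm_loc P h1 h2 h3 i, Nat.card_eq_fintype_card])
    (fun P => norm_value_le T P D) E.α E.β E.size.1 E.size.2
    (fun i => by rw [E.norm_α i, Nat.card_eq_fintype_card])
    (fun j => by
      have := E.norm_β j
      rwa [Nat.card_eq_fintype_card] at this)
    (fun n hn => by
      classical
      rw [E.formula n hn]
      congr 1
      refine Finset.sum_congr rfl fun e _ => ?_
      have h1 : goodPlaces X₀.bad e = (((IR F e).filter (· ∉ X₀.bad) : Finset F[X]) : Set F[X]) := by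
        ext P
        unfold goodPlaces
        rw [Finset.mem_coe, Finset.mem_filter, mem_IR]
        constructor
        · rintro ⟨a, b, c, d⟩
          exact ⟨⟨a, b, c⟩, d⟩
        · rintro ⟨⟨a, b, c⟩, d⟩
          exact ⟨a, b, c, d⟩
      rw [h1, finsum_mem_coe_finset])

lemma mult_card {D : ℕ} (α : Fin D → ℂ) (R : ℕ) :
    {i | R ≤ {j | α j = α i}.ncard}.ncard =
      (open Classical in Finset.univ.filter fun i =>
        R ≤ (Finset.univ.filter fun j => α j = α i).card : Finset (Fin D)).card := by
  classical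
  have h1 : ∀ i, {j | α j = α i}.ncard = (Finset.univ.filter fun j => α j = α i).card := by
    intro i
    rw [← Set.ncard_coe_finset]
    congr 1
    ext j
    simp
  simp_rw [h1]
  rw [← Set.ncard_coe_finset]
  congr 1
  ext i
  simp

lemma large_eq {F : Type} [Field F] [Fintype F] {r w : ℕ} {X₀ : Family F r w}
    {T : Character F} {D : F[X]} {K : ℝ} (E : TwistedModule X₀ T D K) (R : ℕ) :
    E.large R = (bigIdx E.toED R).card := by
  classical
  unfold TwistedModule.large
  rw [mult_card]
  unfold bigIdx
  have hr : ((rk F ^ (w + 1) : ℝ) : ℂ) ≠ 0 := by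
    obtain ⟨r0, r1⟩ := rk_bounds F
    have : rk F ^ (w + 1) ≠ 0 := by positivity
    exact_mod_cast this
  have hu : ∀ i j : Fin E.dim, E.toED.u j = E.toED.u i ↔ E.α j = E.α i := by
    intro i j
    constructor
    · intro h
      exact mul_right_cancel₀ hr h
    · intro h
      show E.α j * _ = E.α i * _
      rw [h]
  congr 1
  ext i
  simp only [Finset.mem_filter, Finset.mem_univ, true_and]
  have e : (Finset.univ.filter fun j => E.α j = E.α i) =
      (Finset.univ.filter fun j : Fin E.dim => E.toED.u j = E.toED.u i) := by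
    ext j
    simp only [Finset.mem_filter, Finset.mem_univ, true_and]
    exact (hu i j).symm
  rw [e]
  constructor
  · intro h
    exact Finset.mem_filter.2 ⟨Finset.mem_univ _, h⟩
  · intro h
    exact (Finset.mem_filter.1 h).2

lemma rank_le {F : Type} [Field F] {r w : ℕ} {X₀ : Family F r w}
    {T : Character F} {D : F[X]} {K : ℝ} (E : TwistedModule X₀ T D K) (R : ℕ) :
    (E.nil ^ R).rank ≤ E.large R := by
  classical
  have h1 := rank_pow_le (Matrix.toLin' E.Φ) (Matrix.toLin' E.nil) (α := E.α)
    (by rw [Matrix.charpoly_toLin', E.charpoly_Φ])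
    (by
      have := E.commute_nil.map (Matrix.toLinAlgEquiv' (R := ℂ) (n := Fin E.dim))
      exact this)
    (by
      obtain ⟨m, hm⟩ := E.isNilpotent_nil
      refine ⟨m, ?_⟩
      rw [← Matrix.toLin'_pow, hm, map_zero]) R
  have h2 : (E.nil ^ R).rank = Module.finrank ℂ (LinearMap.range ((Matrix.toLin' E.nil) ^ R)) := by
    rw [← Matrix.toLin'_pow]
    rfl
  rw [h2]
  refine h1.trans ?_
  unfold TwistedModule.large
  rw [mult_card]
  refine Finset.card_le_card fun i hi => ?_
  rw [Finset.mem_filter] at hi ⊢
  exact ⟨Finset.mem_univ _, (Nat.le_succ R).trans hi.2⟩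

lemma rank_zero {D : ℕ} {M : Matrix (Fin D) (Fin D) ℂ} (h : M.rank = 0) : M = 0 := by
  have h1 : LinearMap.range M.mulVecLin = ⊥ := Submodule.finrank_eq_zero.1 h
  rw [LinearMap.range_eq_bot] at h1
  have h2 : Matrix.toLin' M = Matrix.toLin' 0 := by
    rw [map_zero]
    exact h1
  exact (Matrix.toLin' (R := ℂ)).injective h2

lemma small_of {F : Type} [Field F] [Fintype F] {r w : ℕ} {X₀ : Family F r w}
    {T : Character F} {K : ℝ} (S : Finset F[X])
    (E : ∀ D : S, TwistedModule X₀ T D.1 K) (R : ℕ) (b : ℝ)
    (h : (∑ D, ((bigIdx (E D).toED R).card : ℝ)) ≤ b) : SmallOn S E R b := by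
  classical
  have h1 : (∑ D, ((E D).large R : ℝ)) ≤ b := by
    refine le_trans (le_of_eq ?_) h
    exact Finset.sum_congr rfl fun D _ => by rw [large_eq]
  have h2 : (∑ D, (((E D).nil ^ R).rank : ℝ)) ≤ b := by
    refine (Finset.sum_le_sum fun D _ => ?_).trans h1
    exact_mod_cast rank_le (E D) R
  refine ⟨h1, h2, le_trans ?_ h2⟩
  have h3 : {D | (E D).nil ^ R ≠ 0} = ((Finset.univ.filter fun D => (E D).nil ^ R ≠ 0 :
      Finset S) : Set S) := by
    ext D
    simp
  rw [h3, Set.ncard_coe_finset, Finset.card_eq_sum_ones]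
  push_cast
  rw [Finset.sum_filter]
  refine Finset.sum_le_sum fun D _ => ?_
  split_ifs with h4
  · have h5 : 1 ≤ ((E D).nil ^ R).rank := by
      rw [Nat.one_le_iff_ne_zero]
      intro h6
      exact h4 (rank_zero h6)
    exact_mod_cast h5
  · positivity

/-- the choice of `R` -/
lemma log_choice {c C B : ℝ} (hc : 0 < c) (hC : 0 < C) (_ : 0 < B) :
    ∃ A : ℝ, 0 < A ∧ ∀ N R : ℕ, 16 ≤ N → A * Real.log N / Real.log (Real.log N) ≤ R →
      1 ≤ R ∧ C * (R : ℝ) ^ (-(c * R)) * N ≤ (N : ℝ) ^ (-B) := by
  have hlC : 0 ≤ |Real.log C| := abs_nonneg _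
  refine ⟨max 1 (2 * (B + 1 + |Real.log C|) / c), lt_of_lt_of_le one_pos (le_max_left _ _), ?_⟩
  set A := max 1 (2 * (B + 1 + |Real.log C|) / c) with hA
  have hA1 : 1 ≤ A := le_max_left _ _
  have hA2 : 2 * (B + 1 + |Real.log C|) ≤ c * A := by
    have := le_max_right 1 (2 * (B + 1 + |Real.log C|) / c)
    rw [div_le_iff₀ hc] at this
    linarith
  intro N R hN hR
  have hNr : (16 : ℝ) ≤ N := by exact_mod_cast hN
  have hN0 : (0 : ℝ) < N := by linarith
  set L := Real.log N with hL
  have hLe : Real.exp 1 ≤ L := by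
    rw [hL, Real.le_log_iff_exp_le hN0]
    refine le_trans ?_ hNr
    have h1 : Real.exp 1 ≤ 2.7182818286 := Real.exp_one_lt_d9.le
    have h2 : Real.log 16 = 4 * Real.log 2 := by
      rw [show (16 : ℝ) = 2 ^ 4 by norm_num, Real.log_pow]
      norm_num
    have h3 : Real.exp 1 ≤ Real.log 16 := by
      rw [h2]
      have := Real.log_two_gt_d9
      linarith
    calc Real.exp (Real.exp 1) ≤ Real.exp (Real.log 16) := Real.exp_le_exp.2 h3
      _ = 16 := Real.exp_log (by norm_num)
  have hL1 : 1 ≤ L := by
    have := Real.exp_one_gt_d9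
    linarith
  have hL0 : 0 < L := by linarith
  set l := Real.log L with hl
  have hl1 : 1 ≤ l := by
    rw [hl, Real.le_log_iff_exp_le hL0]
    exact hLe
  have hl0 : 0 < l := by linarith
  have hRr : L / l ≤ R := by
    refine le_trans ?_ hR
    rw [mul_div_assoc]
    have : 0 ≤ L / l := by positivity
    nlinarith
  have hLl : 0 < L / l := by positivity
  have hR0 : (0 : ℝ) < R := by linarith
  have hR1 : 1 ≤ R := by exact_mod_cast hR0
  refine ⟨hR1, ?_⟩
  have hlogR : l / 2 ≤ Real.log R := by
    have h1 : Real.log (L / l) ≤ Real.log R := Real.log_le_log hLl hRr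
    rw [Real.log_div hL0.ne' hl0.ne'] at h1
    have h2 : Real.log l ≤ l / 2 := by
      have h3 := Real.log_le_sub_one_of_pos (x := l / 2) (by positivity)
      rw [Real.log_div hl0.ne' (by norm_num)] at h3
      have h4 := Real.log_two_lt_d9
      linarith
    linarith
  have hRL : A * L / 2 ≤ R * Real.log R := by
    have h1 : A * L / l * (l / 2) ≤ R * Real.log R :=
      mul_le_mul hR hlogR (by positivity) hR0.le
    have h2 : A * L / l * (l / 2) = A * L / 2 := by
      field_simp
    linarith
  have h3 : (B + 1) * L + Real.log C ≤ c * R * Real.log R := by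
    have h4 : c * (A * L / 2) ≤ c * (R * Real.log R) := mul_le_mul_of_nonneg_left hRL hc.le
    have h5 : Real.log C ≤ |Real.log C| := le_abs_self _
    have h6 : (B + 1 + |Real.log C|) * L ≤ c * (A * L / 2) := by
      have := mul_le_mul_of_nonneg_right hA2 hL0.le
      linarith
    nlinarith
  have e1 : C * (R : ℝ) ^ (-(c * R)) * N = Real.exp (Real.log C - c * R * Real.log R + L) := by
    rw [Real.rpow_def_of_pos hR0, Real.exp_add, Real.exp_sub, Real.exp_log hC, hL, Real.exp_log hN0,
      div_eq_mul_inv, ← Real.exp_neg]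
    congr 3
    ring
  have e2 : (N : ℝ) ^ (-B) = Real.exp (-(B * L)) := by
    rw [Real.rpow_def_of_pos hN0]
    congr 1
    rw [hL]
    ring
  rw [e1, e2]
  apply Real.exp_le_exp.2
  linarith

end proofs

/-- **The nilpotent part of Frobenius is small on average over all twists.** -/
theorem result (r : ℕ) (κ : ℝ) (hκ : 1 ≤ κ) :
    (∃ c C : ℝ, 0 < c ∧ 0 < C ∧
      ∀ (F : Type) [Field F] [Finite F] (w : ℕ) (X₀ : Family F r w) (T : Character F) (N : ℕ), 1 ≤ N →
      ∀ S : Finset F[X], (∀ D ∈ S, D.degree < N) → ∀ (E : ∀ D : S, TwistedModule X₀ T D.1 (κ * N)),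
      ∀ R : ℕ, 1 ≤ R → SmallOn S E R (C * (R : ℝ) ^ (-(c * R)) * N * (Nat.card F : ℝ) ^ N)) ∧
    (∀ B : ℝ, 0 < B → ∃ A : ℝ, 0 < A ∧
      ∀ (F : Type) [Field F] [Finite F] (w : ℕ) (X₀ : Family F r w) (T : Character F) (N : ℕ), 16 ≤ N →
      ∀ S : Finset F[X], (∀ D ∈ S, D.degree < N) → ∀ (E : ∀ D : S, TwistedModule X₀ T D.1 (κ * N)),
      ∀ R : ℕ, A * Real.log N / Real.log (Real.log N) ≤ R →
        SmallOn S E R ((N : ℝ) ^ (-B) * (Nat.card F : ℝ) ^ N)) := by
  classical
  obtain ⟨c, C, hc, hC, H⟩ := Pool.Agent.J6H2.NP.mult_avg_one (r + 3) (by omega) hκ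
  have key : ∀ (F : Type) [Field F] [Finite F] (w : ℕ) (X₀ : Family F r w) (T : Character F) (N : ℕ),
      1 ≤ N → ∀ S : Finset F[X], (∀ D ∈ S, D.degree < N) →
      ∀ (E : ∀ D : S, TwistedModule X₀ T D.1 (κ * N)),
      ∀ R : ℕ, 1 ≤ R → SmallOn S E R (C * (R : ℝ) ^ (-(c * R)) * N * (Nat.card F : ℝ) ^ N) := by
    intro F _ _ w X₀ T N hN S hS E R hR
    have : Fintype F := Fintype.ofFinite F
    apply small_of
    have h1 := H F N hN _ (sys X₀ T) (2 * r) (by positivity) (by push_cast; linarith) R hR S
      (fun D => ⟨D.1, mem_degreeLT.2 (hS D.1 D.2)⟩) (by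
        intro D D' h
        apply Subtype.ext
        exact congrArg (fun z : degreeLT F N => (z : F[X])) h) (fun D => (E D).toED)
    rw [Nat.card_eq_fintype_card]
    exact h1
  refine ⟨⟨c, C, hc, hC, key⟩, fun B hB => ?_⟩
  obtain ⟨A, hA, hA'⟩ := log_choice hc hC hB
  refine ⟨A, hA, fun F _ _ w X₀ T N hN S hS E R hR => ?_⟩
  obtain ⟨h1, h2⟩ := hA' N R hN hR
  have h3 := key F w X₀ T N (by omega) S hS E R h1
  have h4 : C * (R : ℝ) ^ (-(c * R)) * N * (Nat.card F : ℝ) ^ N ≤ (N : ℝ) ^ (-B) * (Nat.card F : ℝ) ^ N :=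
    mul_le_mul_of_nonneg_right h2 (by positivity)
  exact ⟨h3.eigenspaces.trans h4, h3.ranks.trans h4, h3.exceptions.trans h4⟩

end Pool.Agent.Results.MP_93fb11_ag.TwistsOnAverage
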